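import Pool.Agent.Helper107.RoughKernel

set_option autoImplicit false
open MeasureTheory Filter Topology Metric
open Pool.Agent.Helper107.RoughKernel

namespace Pool.Agent.Results.MP_e7f1de_an.SquareIntegrableKernel

/-- the mean oscillation over a set containing the two test rectangles controls the
difference functional -/
lemma osc_set (B : Set E2) (hBm : MeasurableSet B) (hB0 : volume B ≠ 0) (hBfin : volume B ≠ ⊤)
    (hQB : QB ⊆ B) (g : E2 → ℝ) (C : ℝ) (hg : IntegrableOn g B)
    (hC : (⨍ x in B, |g x - ⨍ y in B, g y|) ≤ C) :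
    ∫ x in Q1, (g x - g (x + av)) ≤ 2 * (volume.real B * C) := by
  set c := ⨍ y in B, g y with hc
  have hG : IntegrableOn (fun x => |g x - c|) B := by
    have : IntegrableOn (fun x => g x - c) B := hg.sub (integrableOn_const hBfin)
    exact this.norm
  have hGi : Integrable (Set.indicator B (fun x => |g x - c|)) := by
    rw [integrable_indicator_iff hBm]; exact hG
  have hGi2 : Integrable (fun x => Set.indicator B (fun x => |g x - c|) (x + av)) :=
    hGi.comp_add_right av
  have hBint : ∫ x, Set.indicator B (fun x => |g x - c|) x = volume.real B *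
      (⨍ x in B, |g x - c|) := by
    rw [integral_indicator hBm, setAverage_eq, smul_eq_mul, ← mul_assoc, mul_inv_cancel₀, one_mul]
    rw [Measure.real, ENNReal.toReal_ne_zero]
    exact ⟨hB0, hBfin⟩
  have h1 : ∀ x ∈ Q1, g x - g (x + av) ≤ Set.indicator B (fun x => |g x - c|) x +
      Set.indicator B (fun x => |g x - c|) (x + av) := by
    intro x hx
    rw [Set.indicator_of_mem (hQB (Q1_sub_QB hx)),
      Set.indicator_of_mem (hQB (Q1_add_QB hx))]
    have h2 := le_abs_self (g x - c)
    have h3 := neg_abs_le (g (x + av) - c)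
    linarith
  have hsum : Integrable (fun x => Set.indicator B (fun x => |g x - c|) x +
      Set.indicator B (fun x => |g x - c|) (x + av)) := hGi.add hGi2
  have hnn : ∀ x, 0 ≤ Set.indicator B (fun x => |g x - c|) x :=
    fun x => Set.indicator_nonneg (fun _ _ => abs_nonneg _) x
  have hQ1g : IntegrableOn g Q1 := hg.mono_set (fun x hx => hQB (Q1_sub_QB hx))
  have hQ1g2 : IntegrableOn (fun x => g (x + av)) Q1 := by
    have h5 : Integrable (Set.indicator B g) := by
      rw [integrable_indicator_iff hBm]; exact hg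
    have h6 : Integrable (fun x => Set.indicator B g (x + av)) := h5.comp_add_right av
    refine (h6.integrableOn (s := Q1)).congr_fun ?_ measurableSet_Q1
    intro x hx
    simp only
    rw [Set.indicator_of_mem (hQB (Q1_add_QB hx))]
  calc ∫ x in Q1, (g x - g (x + av)) ≤ ∫ x in Q1, (Set.indicator B (fun x => |g x - c|) x +
        Set.indicator B (fun x => |g x - c|) (x + av)) :=
        setIntegral_mono_on (hQ1g.sub hQ1g2) hsum.integrableOn measurableSet_Q1 h1
    _ ≤ ∫ x, (Set.indicator B (fun x => |g x - c|) x +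
        Set.indicator B (fun x => |g x - c|) (x + av)) :=
        setIntegral_le_integral hsum (Eventually.of_forall (fun x => add_nonneg (hnn _) (hnn _)))
    _ = 2 * ∫ x, Set.indicator B (fun x => |g x - c|) x := by
        rw [integral_add hGi hGi2, integral_add_right_eq_self
          (fun x => Set.indicator B (fun x => |g x - c|) x) av]
        ring
    _ ≤ _ := by
        rw [hBint]
        have := measureReal_nonneg (μ := (volume : Measure E2)) (s := B)
        have h7 := mul_le_mul_of_nonneg_left hC this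
        linarith

/-- the square of side 20 centred at the origin -/
def Sq : Set E2 := {x | ∀ i, |x i| ≤ 10}

lemma measurableSet_Sq : MeasurableSet Sq := by
  have : Sq = ⋂ i, {x : E2 | |x i| ≤ 10} := by
    ext x; simp [Sq]
  rw [this]
  refine MeasurableSet.iInter (fun i => ?_)
  exact measurableSet_le (by fun_prop) measurable_const

lemma Sq_norm {x : E2} (hx : x ∈ Sq) : ‖x‖ ≤ 20 := by
  have h := norm_sq_E2 x
  have h0 := sq_abs (x 0)
  have h1 := sq_abs (x 1)
  have a0 := hx 0
  have a1 := hx 1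
  have b0 := abs_nonneg (x 0)
  have b1 := abs_nonneg (x 1)
  by_contra hc
  have := not_le.1 hc
  nlinarith

lemma QB_sub_Sq : QB ⊆ Sq := by
  intro x hx i
  obtain ⟨⟨h1, h2⟩, h3, h4⟩ := hx
  fin_cases i
  · show |x 0| ≤ 10
    exact abs_le.2 ⟨by linarith, by linarith⟩
  · show |x 1| ≤ 10
    exact abs_le.2 ⟨by linarith, by linarith⟩

lemma volume_Sq_ne_top : volume Sq ≠ ⊤ := by
  refine ne_top_of_le_ne_top (measure_closedBall_lt_top (μ := (volume : Measure E2))
    (x := (0 : E2)) (r := 20)).ne (measure_mono ?_)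
  intro x hx
  rw [mem_closedBall_zero_iff]
  exact Sq_norm hx

lemma volume_Sq_ne_zero : volume Sq ≠ 0 := by
  have h1 : volume Q1 ≤ volume Sq := measure_mono (fun x hx => QB_sub_Sq (Q1_sub_QB hx))
  rw [volume_Q1] at h1
  intro h
  rw [h] at h1
  have := ENNReal.ofReal_eq_zero.1 (le_antisymm h1 zero_le)
  norm_num at this

/-- the truncated integrals depend measurably on the point -/
lemma measurable_trunc {τ : ℝ → ℝ} (hτ : ContDiff ℝ 1 τ) (m : ℕ) (ε : ℝ) :
    Measurable (fun x : E2 => ∫ y in {y : E2 | ε < ‖y‖}, ker (prof τ) y * tf τ m (x - y)) := by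
  have h1 : Measurable (fun p : E2 × E2 => ker (prof τ) p.2 * tf τ m (p.1 - p.2)) := by
    refine Measurable.mul ?_ ?_
    · exact (measurable_ker (measurable_prof hτ.continuous.measurable)).comp measurable_snd
    · exact (contDiff_tf hτ m).continuous.measurable.comp (measurable_fst.sub measurable_snd)
  exact (StronglyMeasurable.integral_prod_right
    (f := fun (x : E2) (y : E2) => ker (prof τ) y * tf τ m (x - y))
    (ν := volume.restrict {y : E2 | ε < ‖y‖}) h1.stronglyMeasurable).measurable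

/-- the principal value is bounded near the origin -/
lemma pv_bound {τ : ℝ → ℝ} (hτ : ContDiff ℝ 1 τ) (hτ1 : ∀ t, |τ t| ≤ 1)
    (hle : ∀ m v, lac τ m v ^ 2 ≤ lac Real.cos m v ^ 2 + lac Real.sin m v ^ 2) (m : ℕ) :
    ∃ M : ℝ, ∀ x ∈ Sq, ∀ L : ℝ,
      Tendsto (fun ε : ℝ => ∫ y in {y : E2 | ε < ‖y‖}, ker (prof τ) y * tf τ m (x - y))
        (𝓝[>] 0) (𝓝 L) → |L| ≤ M := by
  have hm := measurable_prof hτ.continuous.measurable
  have hs := prof_supp τ
  have h1 := prof_lint hτ.continuous hle
  set R : ℝ := 20 + 4 * lam m (16 ^ m) with hR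
  set S : Set E2 := {y : E2 | 1 ≤ ‖y‖ ∧ ‖y‖ ≤ R} with hS
  have hSm : MeasurableSet S :=
    (measurableSet_le measurable_const measurable_norm).inter
      (measurableSet_le measurable_norm measurable_const)
  have hI : IntegrableOn (fun y => |ker (prof τ) y|) S :=
    (ker_integrableOn_annulus hm hs h1 1 R one_pos).norm
  have hI2 : Integrable (Set.indicator S (fun y => |ker (prof τ) y|)) := by
    rw [integrable_indicator_iff hSm]; exact hI
  refine ⟨∫ y, Set.indicator S (fun y => |ker (prof τ) y|) y, fun x hx L hL => ?_⟩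
  refine le_of_tendsto hL.abs (Eventually.of_forall (fun ε => ?_))
  have h2 : ‖∫ y in {y : E2 | ε < ‖y‖}, ker (prof τ) y * tf τ m (x - y)‖ ≤
      ∫ y in {y : E2 | ε < ‖y‖}, Set.indicator S (fun y => |ker (prof τ) y|) y := by
    refine norm_integral_le_of_norm_le hI2.integrableOn (Eventually.of_forall (fun y => ?_))
    by_cases h : tf τ m (x - y) = 0
    · rw [h, mul_zero, norm_zero]
      exact Set.indicator_nonneg (fun _ _ => abs_nonneg _) _
    · have hz := support_tf_subset τ m h
      obtain ⟨j, hj, hg⟩ := tf_ne_zero h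
      rw [mem_closedBall_zero_iff] at hz
      have hy : y ∈ S := by
        constructor
        · have e : (x - y) 0 = x 0 - y 0 := rfl
          have h2 := hg.2.1
          rw [e] at h2
          have h3 := lam_ge' m j
          have h4 := abs_zero_le y
          have h5 := le_abs_self (y 0)
          have h6 := (abs_le.1 (hx 0)).1
          linarith
        · have h3 := Sq_norm hx
          calc ‖y‖ = ‖x - (x - y)‖ := by congr 1; abel
            _ ≤ ‖x‖ + ‖x - y‖ := norm_sub_le _ _
            _ ≤ R := by rw [hR]; linarith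
      rw [Set.indicator_of_mem hy, norm_mul, Real.norm_eq_abs, Real.norm_eq_abs]
      calc |ker (prof τ) y| * |tf τ m (x - y)| ≤ |ker (prof τ) y| * 1 :=
            mul_le_mul_of_nonneg_left (abs_tf_le hτ1 m _) (abs_nonneg _)
        _ = _ := mul_one _
  rw [Real.norm_eq_abs] at h2
  refine h2.trans (setIntegral_le_integral hI2 (Eventually.of_forall (fun y => ?_)))
  exact Set.indicator_nonneg (fun _ _ => abs_nonneg _) _

/-- properties of the kernels -/
lemma kernel_good {τ : ℝ → ℝ} (hτ : ContDiff ℝ 1 τ)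
    (hle : ∀ m v, lac τ m v ^ 2 ≤ lac Real.cos m v ^ 2 + lac Real.sin m v ^ 2) :
    Measurable (ker (prof τ)) ∧
    (∀ (x : E2) (t : ℝ), 0 < t → ker (prof τ) (t • x) = ker (prof τ) x / t ^ 2) ∧
    (∀ x : E2, ker (prof τ) (-x) = - ker (prof τ) x) ∧
    IntegrableOn (fun x => ker (prof τ) x ^ 2) {x : E2 | 1 ≤ ‖x‖ ∧ ‖x‖ ≤ 2} volume ∧
    (∫ x in {x : E2 | 1 ≤ ‖x‖ ∧ ‖x‖ ≤ 2}, ker (prof τ) x) = 0 ∧
    IntegrableOn (fun x => |ker (prof τ) x| * max 0 (Real.log |ker (prof τ) x|))
      {x : E2 | 1 ≤ ‖x‖ ∧ ‖x‖ ≤ 2} volume := by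
  have hm := measurable_prof hτ.continuous.measurable
  have hk := measurable_ker hm
  have hs := prof_supp τ
  have h1 := prof_lint hτ.continuous hle
  have h2 := prof_sq_lint hτ.continuous hle
  have hset : MeasurableSet {x : E2 | 1 ≤ ‖x‖ ∧ ‖x‖ ≤ 2} :=
    (measurableSet_le measurable_const measurable_norm).inter
      (measurableSet_le measurable_norm measurable_const)
  refine ⟨hk, fun x t ht => ?_, ker_neg _, ?_, ker_mean_zero _ _ hset (fun x => by simp), ?_⟩
  · rw [ker_smul _ x t ht, zpow_neg, zpow_natCast, div_eq_inv_mul]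
  · refine ⟨(hk.pow_const 2).aestronglyMeasurable, ?_⟩
    refine lt_of_le_of_lt ?_ (ker_lint hm hs 2 two_ne_zero h2 1 2 one_pos)
    refine lintegral_mono (fun x => ?_)
    simp only
    rw [← ofReal_norm, ← ofReal_norm, ← ENNReal.ofReal_pow (norm_nonneg _), norm_pow]
  · refine ⟨?_, ?_⟩
    · have : Measurable (fun x : E2 => |ker (prof τ) x| * max 0 (Real.log |ker (prof τ) x|)) := by
        fun_prop
      exact this.aestronglyMeasurable
    · refine lt_of_le_of_lt ?_ (ker_lint hm hs 2 two_ne_zero h2 1 2 one_pos)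
      refine lintegral_mono (fun x => ?_)
      simp only
      rw [← ofReal_norm, ← ofReal_norm, ← ENNReal.ofReal_pow (norm_nonneg _)]
      refine ENNReal.ofReal_le_ofReal ?_
      rw [norm_mul, Real.norm_eq_abs, Real.norm_eq_abs, Real.norm_eq_abs, abs_abs, sq]
      refine mul_le_mul_of_nonneg_left ?_ (abs_nonneg _)
      rw [abs_of_nonneg (le_max_left _ _)]
      refine max_le (abs_nonneg _) ?_
      rcases eq_or_ne |ker (prof τ) x| 0 with h | h
      · rw [h]; simp
      · exact (Real.log_le_sub_one_of_pos (lt_of_le_of_ne (abs_nonneg _) h.symm)).trans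
          (by linarith)

/-- the principal value of the m-th test function -/
lemma pv_all {τ : ℝ → ℝ} (hτ : ContDiff ℝ 1 τ) (hτ1 : ∀ t, |τ t| ≤ 1)
    (hle : ∀ m v, lac τ m v ^ 2 ≤ lac Real.cos m v ^ 2 + lac Real.sin m v ^ 2) (m : ℕ) :
    ∃ g : E2 → ℝ, Measurable g ∧ (∀ x : E2, Tendsto (fun ε : ℝ => ∫ y in {y : E2 | ε < ‖y‖},
        ker (prof τ) y * tf τ m (x - y)) (𝓝[>] 0) (𝓝 (g x))) ∧
      IntegrableOn g Sq volume ∧
      ∫ x in Q1, (g x - g (x + av)) = ∫ z, ∫ x in Q1, (Ph τ m x z - Ph τ m (x + av) z) := by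
  have hm := measurable_prof hτ.continuous.measurable
  have hs := prof_supp τ
  have h1 := prof_lint hτ.continuous hle
  obtain ⟨K, hK⟩ := (contDiff_tf hτ m).lipschitzWith_of_hasCompactSupport
    (hasCompactSupport_tf τ m) (by norm_num)
  choose g hg using fun x => pv_exists hm hs h1 (tf τ m) K hK (hasCompactSupport_tf τ m) x
  have hgm : Measurable g := by
    refine measurable_of_tendsto_metrizable (fun n : ℕ => measurable_trunc hτ m (1 / ((n : ℝ) + 1)))
      (tendsto_pi_nhds.2 (fun x => ?_))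
    refine (hg x).comp ?_
    rw [tendsto_nhdsWithin_iff]
    refine ⟨tendsto_one_div_add_atTop_nhds_zero_nat, Eventually.of_forall (fun n => ?_)⟩
    show (0:ℝ) < 1 / ((n : ℝ) + 1)
    positivity
  obtain ⟨M, hM⟩ := pv_bound hτ hτ1 hle m
  refine ⟨g, hgm, hg, ?_, functional_eq hτ hτ1 m g (fun x hx => pv_near m hx (hg x))⟩
  have hc : IntegrableOn (fun _ : E2 => M) Sq volume := integrableOn_const volume_Sq_ne_top
  refine hc.mono' hgm.aestronglyMeasurable ?_
  refine (ae_restrict_iff' measurableSet_Sq).2 (Eventually.of_forall (fun x hx => ?_))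
  exact hM x hx _ (hg x)

/-- There is a real kernel on the plane, odd, homogeneous of degree -2 and square integrable on the
annulus between the circles of radii 1 and 2 (so with mean zero and in L log L), whose principal
value operator is not bounded from bounded functions to functions of bounded mean oscillation, even
on continuously differentiable functions of compact support. -/
theorem result :
    ∃ k : EuclideanSpace ℝ (Fin 2) → ℝ, Measurable k ∧
      (∀ (x : EuclideanSpace ℝ (Fin 2)) (t : ℝ), 0 < t → k (t • x) = k x / t ^ 2) ∧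
      (∀ x : EuclideanSpace ℝ (Fin 2), k (-x) = - k x) ∧
      IntegrableOn (fun x => k x ^ 2) {x : EuclideanSpace ℝ (Fin 2) | 1 ≤ ‖x‖ ∧ ‖x‖ ≤ 2} volume ∧
      (∫ x in {x : EuclideanSpace ℝ (Fin 2) | 1 ≤ ‖x‖ ∧ ‖x‖ ≤ 2}, k x) = 0 ∧
      IntegrableOn (fun x => |k x| * max 0 (Real.log |k x|))
        {x : EuclideanSpace ℝ (Fin 2) | 1 ≤ ‖x‖ ∧ ‖x‖ ≤ 2} volume ∧
      ∀ C : ℝ, ∃ f g : EuclideanSpace ℝ (Fin 2) → ℝ,
        ContDiff ℝ 1 f ∧ HasCompactSupport f ∧ (∀ x, |f x| ≤ 1) ∧ Measurable g ∧
        (∀ x, Tendsto (fun ε : ℝ => ∫ y in {y : EuclideanSpace ℝ (Fin 2) | ε < ‖y‖},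
          k y * f (x - y)) (𝓝[>] 0) (𝓝 (g x))) ∧
        IntegrableOn g {x : EuclideanSpace ℝ (Fin 2) | ∀ i, |x i| ≤ 10} volume ∧
        C < ⨍ x in {x : EuclideanSpace ℝ (Fin 2) | ∀ i, |x i| ≤ 10},
          |g x - ⨍ y in {x : EuclideanSpace ℝ (Fin 2) | ∀ i, |x i| ≤ 10}, g y| := by
  by_contra hcon
  have hlec : ∀ m v, lac Real.cos m v ^ 2 ≤ lac Real.cos m v ^ 2 + lac Real.sin m v ^ 2 :=
    fun m v => le_add_of_nonneg_right (sq_nonneg _)
  have hles : ∀ m v, lac Real.sin m v ^ 2 ≤ lac Real.cos m v ^ 2 + lac Real.sin m v ^ 2 :=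
    fun m v => le_add_of_nonneg_left (sq_nonneg _)
  set V := volume.real Sq with hV
  have main : ∀ τ : ℝ → ℝ, ContDiff ℝ 1 τ → (∀ t, |τ t| ≤ 1) →
      (∀ m v, lac τ m v ^ 2 ≤ lac Real.cos m v ^ 2 + lac Real.sin m v ^ 2) →
      ∃ C : ℝ, ∀ m, ∫ z, ∫ x in Q1, (Ph τ m x z - Ph τ m (x + av) z) ≤ 2 * (V * C) := by
    intro τ hτ hτ1 hle
    by_contra hno
    push Not at hno
    obtain ⟨a1, a2, a3, a4, a5, a6⟩ := kernel_good hτ hle
    refine hcon ⟨ker (prof τ), a1, a2, a3, a4, a5, a6, fun C => ?_⟩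
    obtain ⟨m, hmC⟩ := hno C
    obtain ⟨g, hgm, hg, hgi, hgf⟩ := pv_all hτ hτ1 hle m
    refine ⟨tf τ m, g, contDiff_tf hτ m, hasCompactSupport_tf τ m, abs_tf_le hτ1 m, hgm, hg, hgi,
      ?_⟩
    by_contra hlt
    have h5 := osc_set Sq measurableSet_Sq volume_Sq_ne_zero volume_Sq_ne_top QB_sub_Sq g C hgi
      (not_lt.1 hlt)
    rw [hgf] at h5
    linarith
  obtain ⟨Cc, hCc⟩ := main Real.cos Real.contDiff_cos Real.abs_cos_le_one hlec
  obtain ⟨Cs, hCs⟩ := main Real.sin Real.contDiff_sin Real.abs_sin_le_one hles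
  have key : ∀ m : ℕ, 3 ≤ m → (2:ℝ) ^ m ≤ 2880000 * (2 * (V * Cc) + 2 * (V * Cs)) := by
    intro m hm
    have h1 := hCc m
    have h2 := hCs m
    have h3 := integral_DD_ge hm
    have i1 := (integrable_dPh Real.contDiff_cos Real.abs_cos_le_one m).integral_prod_right
    have i2 := (integrable_dPh Real.contDiff_sin Real.abs_sin_le_one m).integral_prod_right
    have h4 : ∫ z, DD m z = (∫ z, ∫ x in Q1, (Ph Real.cos m x z - Ph Real.cos m (x + av) z)) +
        ∫ z, ∫ x in Q1, (Ph Real.sin m x z - Ph Real.sin m (x + av) z) := by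
      rw [← integral_add i1 i2]
      refine integral_congr_ae (Eventually.of_forall (fun z => ?_))
      simp only [DD]
      exact integral_add (integrableOn_dPh_x Real.contDiff_cos Real.abs_cos_le_one m z)
        (integrableOn_dPh_x Real.contDiff_sin Real.abs_sin_le_one m z)
    rw [h4] at h3
    have h5 : (2:ℝ) ^ m / 2880000 ≤ 2 * (V * Cc) + 2 * (V * Cs) := by linarith
    rw [div_le_iff₀ (by norm_num)] at h5
    linarith
  obtain ⟨m, hm⟩ := pow_unbounded_of_one_lt (2880000 * (2 * (V * Cc) + 2 * (V * Cs)))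
    (one_lt_two : (1:ℝ) < 2)
  have h1 := key (m + 3) (by omega)
  have h2 : (2:ℝ) ^ m ≤ 2 ^ (m + 3) := pow_le_pow_right₀ one_le_two (by omega)
  linarith

end Pool.Agent.Results.MP_e7f1de_an.SquareIntegrableKernel
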